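import Pool.Agent.Helper686_FJ.Dan4
import Pool.Agent.Helper686_FJ.Wh

/-!
# Automorphism groups of the surfaces `x y = p(z)`

`C` is any class of groups with the closure properties `ClosedE C` which contains the groups `F ⋊ ℤ` for
all free groups `F` and all solvable groups. All this is published for the class of groups which satisfy
the Full Farrell-Jones Conjecture, and the Whitehead groups of its torsion-free members vanish.

Let `R` be a domain and `p ∈ R[z]` a polynomial of degree at least `3`, let `A` be the ring
`R[x, y, z] / (x y - p(z))` and `TamD p` the group of the `R`-automorphisms of `A` which is generated by the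
automorphisms with `x ↦ x`, `z ↦ z + x f(x)` for a polynomial `f`, the automorphisms with `x ↦ a x`,
`y ↦ b y`, `z ↦ c z + e`, and the automorphism which interchanges `x` and `y`.

1. `TamD p` is in `C` (`InCT C p`).
2. If the Whitehead groups of all torsion-free groups in `C` vanish, then `Wh(Γ) = 0` for all torsion-free
   subgroups `Γ` of `TamD p`.

For `R = ℂ` the group `TamD p` is the group of all automorphisms of the surface `x y = p(z)`, by a theorem of
Makar-Limanov.

Outline of the proof. On the homomorphisms `θ : A → R[T]`, a triangular automorphism with `f ≠ 0` maps those
with `deg θ(x) > deg θ(y)` to those with `deg θ(y) > deg θ(x)`, because the degree of `p` is at least `3`. By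
ping-pong, the abelian group of the triangular automorphisms and its conjugate under the interchange of
`x` and `y` generate their free product, and this is normalized by the diagonal automorphisms and
by the interchange of `x` and `y`, which generate a solvable group. The theorem on extensions by free
products (`R684`) applies: the mapping tori of the two factors are solvable.
-/

set_option autoImplicit false

namespace Pool.Agent.Results.MP_8f66f0_al.DanielewskiSurfaces

open Pool.Agent.Helper686_FJ Pool.Agent.Helper686_FJ.Dan Pool.Agent.Y110.FJ
open Pool.Agent.R684.FP (FbC)
open Pool.Agent.H694.TR (Sol)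

/-- The Whitehead groups of all torsion-free subgroups of `G` are trivial. -/
def WhSubs (G : Type) [Group G] : Prop := ∀ Γ : Subgroup G, TorFree Γ → WhZero Γ

theorem result (C : ∀ (G : Type) [Group G], Prop) (hC : ClosedE C) (hF : FbC C) (hS : Sol C)
    (R : Type) [CommRing R] [IsDomain R] (p : Polynomial R) (hp : 3 ≤ p.natDegree) :
    InCT C p ∧ ((∀ (Γ : Type) [Group Γ], TorFree Γ → C Γ → WhZero Γ) → InCT WhSubs p) := by
  have h : C (TamD p) := by
    rw [TamD_eq]
    exact tame_mem hC hF hS hp
  exact ⟨h, fun hW Γ hΓ => hW Γ hΓ (hC.base.of_injective _ _ Γ.subtype Γ.subtype_injective h)⟩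

end Pool.Agent.Results.MP_8f66f0_al.DanielewskiSurfaces
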