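import Pool.Agent.Helper686_FJ.Mv
import Pool.Agent.Helper686_FJ.GLZ
import Pool.Agent.Helper686_FJ.Wh

/-!
# Whitehead groups of subgroups of `GL₂` of polynomial rings

`C` is any class of groups with the closure properties `ClosedE C` which contains the groups `F ⋊ ℤ` for
all free groups `F` and all solvable groups. All this is published for the class of groups which satisfy
the Full Farrell-Jones Conjecture, and the Whitehead groups of its torsion-free members vanish.

1. Let `D` be a division ring, `H` a subgroup of `GL₂(D)`. The group of all matrices in `GL₂(D[X])` whose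
   value at `X = 0` is in `H` is in `C` if and only if `H` is in `C`. For instance, `H` may be trivial, or the
   group of triangular matrices when `D` is commutative (then `H` is in `C`), or `GL₂(R)` for a subring `R`
   of `D`; in the last case the group is `GL₂(R + X D[X])`.
2. Let `R` be a ring, not necessarily commutative, which embeds into a division ring, and let `R[σ]` be
   the polynomial ring in any set `σ` of commuting variables. Then `GL₂(R[σ])` is in `C` if and only if
   `GL₂(R)` is in `C`.
3. `GL₂(ℤ[σ])` is in `C`.
4. If `K` is a field in which all finitely generated subrings are finite, for example an algebraic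
   closure of a finite field, then `GL₂(K[σ])` is in `C`.
5. If the Whitehead groups of all torsion-free groups in `C` vanish, then `Wh(Γ) = 0` for all torsion-free
   subgroups `Γ` of `GL₂(ℤ[σ])`, and of `GL₂(R[σ])` if `R` is as in (2) and `GL₂(R)` is in `C`.

Outline of the proof. By ping-pong on `D[X]²`, with respect to the vector of leading coefficients, the
groups `1 + v X D[X] ℓ`, where `v` runs through the points of the projective line over `D` and `ℓ` is a
linear form with kernel `v D`, generate their free product, and `GL₂(D)` permutes them. By the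
algorithm of Euclid this free product is the kernel of `GL₂(D[X]) → GL₂(D)`. The mapping tori of abelian
groups are solvable, and the theorem on extensions by free products (`R684`) gives (1). If `R` embeds
into `D`, then `GL₂(R[X])` embeds into the group of (1) for `H = GL₂(R)`; moreover, `R[X]` embeds into the
division ring of fractions of the Ore domain `D[X]`, so that induction gives (2) for finitely many
variables. The group `GL₂(ℤ)` has a free subgroup of finite index (Sanov), and the groups `GL₂(K)` of (4)
are locally finite.
-/

set_option autoImplicit false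

namespace Pool.Agent.Results.MP_8f66f0_al.PolynomialMatrices

open Pool.Agent.Helper686_FJ Pool.Agent.Helper686_FJ.GLP Pool.Agent.Y110.FJ
open Pool.Agent.R684.FP (FbC)
open Pool.Agent.H694.TR (Sol)

theorem result (C : ∀ (G : Type) [Group G], Prop) (hC : ClosedE C) (hF : FbC C) (hS : Sol C) :
    (∀ (D : Type) [DivisionRing D] (H : Subgroup (Matrix (Fin 2) (Fin 2) D)ˣ),
      C (H.comap (val0 D)) ↔ C H) ∧
    (∀ (σ R : Type) [Ring R], EmbDiv R →
      (InC C (AddMonoidAlgebra R (σ →₀ ℕ)) ↔ InC C R)) ∧
    (∀ σ : Type, InC C (MvPolynomial σ ℤ)) ∧
    (∀ (σ K : Type) [Field K], (∀ s : Finset K, (Subring.closure (s : Set K) : Set K).Finite) →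
      InC C (MvPolynomial σ K)) ∧
    ((∀ (Γ : Type) [Group Γ], TorFree Γ → C Γ → WhZero Γ) →
      (∀ σ : Type, WhG (MvPolynomial σ ℤ)) ∧
      ∀ (σ R : Type) [Ring R], EmbDiv R → InC C R → WhG (AddMonoidAlgebra R (σ →₀ ℕ))) := by
  refine ⟨?_, ?_, ?_, ?_, ?_⟩
  · intro D _ H
    exact comap_ev0_iff hC hF hS H
  · intro σ R _ hR
    exact g2_mp_iff hC hF hS σ R hR
  · intro σ
    exact (g2_mv_iff hC hF hS σ ℤ).2 (g2_int hC hF hS)
  · intro σ K _ h
    exact (g2_mv_iff hC hF hS σ K).2 (g2_lf hC K h)
  · intro hW
    constructor
    · intro σ Γ hΓ
      exact hW Γ hΓ (hC.base.of_injective _ _ Γ.subtype Γ.subtype_injective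
        ((g2_mv_iff hC hF hS σ ℤ).2 (g2_int hC hF hS)))
    · intro σ R _ hR hG Γ hΓ
      exact hW Γ hΓ (hC.base.of_injective _ _ Γ.subtype Γ.subtype_injective
        ((g2_mp_iff hC hF hS σ R hR).2 hG))

end Pool.Agent.Results.MP_8f66f0_al.PolynomialMatrices
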