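import Pool.Agent.Helper687_RF.NPoly

/-!
# Whitehead groups of extensions with finitely generated residually free kernels

`C` is a class of groups with the closure properties `ClosedE C`; they are published for the class of groups
which satisfy the Full Farrell-Jones Conjecture, and the Whitehead groups of its torsion-free members vanish.
`MT C L` means that all mapping tori `L ⋊ ℤ` of the group `L` are in `C`. A group `N` is residually `Γ` if its
elements `≠ 1` are detected by homomorphisms to `Γ`, and `L` is fully residually `Γ` if every finite set of
elements `≠ 1` is detected by a single homomorphism. The finitely generated fully residually free groups are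
the limit groups.

1. Let `Γ` be equationally Noetherian (for example a free group), and suppose that `MT C L` for all finitely
   generated fully residually `Γ` groups `L`. Then `MT C N` for all finitely generated residually `Γ` groups
   `N`; if such a group `N` is normal in `G` and `G ⧸ N` is in `C`, then `G` is in `C`; and all groups with a
   finite normal series whose factors are finitely generated and residually `Γ` are in `C`.
2. Suppose that all mapping tori of limit groups are in `C`, and that `Wh(G) = 0` for all torsion-free groups
   `G` in `C`. Then `Wh(G) = 0` for every torsion-free group `G` which has a finitely generated, residually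
   free normal subgroup `N` with `G ⧸ N` in `C`, and for every group `G` which has a finite normal series
   whose factors are finitely generated and residually free.

Outline of the proof. The space `Hom(N, Γ)`, with the topology generated by the sets `{φ | φ(w) ≠ 1}`, is
Noetherian, and `Aut N` permutes its finitely many irreducible components. The common kernel `Kᵢ` of the
homomorphisms in a component has a fully residually `Γ` quotient. If `N` is normal in `G`, a subgroup `G₁` of
finite index of `G` contains `N` and normalizes all `Kᵢ`, and it embeds in the product of the groups
`G₁ ⧸ Kᵢ`, which are extensions of subgroups of `G ⧸ N` by `N ⧸ Kᵢ`.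
-/

set_option autoImplicit false

namespace Pool.Agent.Results.MP_8f66f0_al.ResiduallyFreeKernels

open Pool.Agent.Helper687_RF
open Pool.Agent.Helper687_Borel (MT)
open Pool.Agent.Y110.FJ (ClosedE)

theorem result (C : ∀ (G : Type) [Group G], Prop) (hC : ClosedE C) :
    (∀ (Γ : Type) [Group Γ], EqNoeth Γ → (∀ (L : Type) [Group L], Lim Γ L → MT C L) →
      (∀ (N : Type) [Group N], Group.FG N → Res Γ N → MT C N) ∧
      (∀ (G : Type) [Group G] (N : Subgroup G) [N.Normal],
        Group.FG N → Res Γ N → C (G ⧸ N) → C G) ∧
      (∀ (G : Type) [Group G], NPoly Γ G → C G)) ∧
    ((∀ (L : Type) [Group L], Lim (FreeGroup ℕ) L → MT C L) →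
      (∀ (G : Type) [Group G], TorFree G → C G → WhZero G) →
      (∀ (G : Type) [Group G] (N : Subgroup G) [N.Normal], TorFree G →
        Group.FG N → Res (FreeGroup ℕ) N → C (G ⧸ N) → WhZero G) ∧
      (∀ (G : Type) [Group G], NPoly (FreeGroup ℕ) G → WhZero G)) := by
  constructor
  · intro Γ _ h hM
    exact ⟨fun N _ hN hr => rf_mt hC h hM hN hr,
      fun G _ N _ hN hr hQ => rf_ext hC h hM N hN hr hQ,
      fun G _ hG => npoly_mem hC h hM hG⟩
  · intro hM hW
    constructor
    · intro G _ N _ hG hN hr hQ
      exact hW G hG (rf_ext hC eqNoeth_free hM N hN hr hQ)
    · intro G _ hG
      exact hW G (npoly_torFree free_torFree hG) (npoly_mem hC eqNoeth_free hM hG)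

end Pool.Agent.Results.MP_8f66f0_al.ResiduallyFreeKernels
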