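import Pool.Agent.Helper140_W.Fz

/-!
# Invertible matrices over `ℤΓ` with rows of norm at most three

Let `Γ` be a torsion-free group and `A ∈ GL_n(ℤΓ)` a matrix all of whose rows have `ℓ¹` norm at most
`3`.  The class of `A` in the Whitehead group is represented by a matrix whose size is at most the
number of rows of `A⁻¹` of norm at least `5`; in particular it is zero if all rows of `A⁻¹` have
norm at most `4`.

Outline.  Let `B = A⁻¹`.
1. Suppose that a row `r` of `A`, or a sum `r = A_x + u A_{x'}` with `x ≠ x'` and `u = ± g`, has norm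
at most `2`.  As `A` is invertible modulo the augmentation ideal and `2`, we have
`r = v e_p + w e_q` with `v = ± h`, `p ≠ q` and `w = 0` or `w = ± h'`.  Replace row `x` by `r` and
subtract the multiple `v⁻¹ w` of column `p` from column `q`.  Then row `x` is `v e_p`, and row `x` and
column `p` can be deleted.  The norms of the other rows of `A` do not increase, and neither do those
of `B`: column `x'` of `B` becomes `B_{·x'} - B_{·x} u` and column `x` is deleted.  The same holds with
`A` and `B` interchanged, for single rows `r` (file `Bk`).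
2. Suppose that no such step is possible.  Then all rows of `A` have norm `3`, and the norms of the
rows of `B` are odd.  Suppose that row `y` of `B` has norm `3`.  Then `e_y = Q₁ + Q₂ + Q₃` where the
`Q_i` are translates (up to sign) of rows of `A`.  One of them, say `Q₁`, has a positive coefficient
at `e_y`, so `Q₂ + Q₃ = e_y - Q₁` has norm `2`.  So `Q₂` and `Q₃` are translates of the same row
`A_x`, and `(1 ± h) A_x` has norm `2` for some `h ≠ 1`.  It follows that `A_x = (1 ∓ h + h ^ 2) (± g) e_j`
(file `Ch`), which is impossible as `h` has infinite order (file `Ex`).  So all rows of `B` have norm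
at least `5` (file `Hv`).
-/

set_option autoImplicit false

namespace Pool.Agent.Results.MP_8f66f0_al.RowsOfNormThree

open Pool.Agent.Helper140_W

variable {Γ : Type} [Group Γ]

/-- the norm of row `i` of `M`: the sum of the absolute values of all coefficients of all entries -/
def rowNorm {κ : Type} [Fintype κ] (M : Matrix κ κ (MonoidAlgebra ℤ Γ)) (i : κ) : ℕ :=
  ∑ j, ∑ g ∈ (M i j).coeff.support, ((M i j).coeff g).natAbs

/-- the square matrix `x` over `ℤΓ`, stabilised by an identity block, is `± g` on one diagonal entry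
times a product of commutators of invertible matrices (the form of the frozen statement) -/
def ZeroInWh {κ : Type} [Fintype κ] [DecidableEq κ]
    (x : Matrix κ κ (MonoidAlgebra ℤ Γ)) : Prop :=
  ∃ (m : ℕ) (g : Γ) (ε : ℤˣ)
    (C : (Matrix (κ ⊕ Fin (m + 1)) (κ ⊕ Fin (m + 1)) (MonoidAlgebra ℤ Γ))ˣ),
    C ∈ commutator (Matrix (κ ⊕ Fin (m + 1)) (κ ⊕ Fin (m + 1)) (MonoidAlgebra ℤ Γ))ˣ ∧
    Matrix.fromBlocks x 0 0 1 =
      Matrix.diagonal (fun i : κ ⊕ Fin (m + 1) =>
          if i = Sum.inr (0 : Fin (m + 1)) then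
            (MonoidAlgebra.single g (ε : ℤ) : MonoidAlgebra ℤ Γ) else 1) * C.val

/-- `A` and `A'` represent the same element of the Whitehead group -/
def SameInWh {n k : ℕ} (A : (Matrix (Fin n) (Fin n) (MonoidAlgebra ℤ Γ))ˣ)
    (A' : (Matrix (Fin k) (Fin k) (MonoidAlgebra ℤ Γ))ˣ) : Prop :=
  ZeroInWh (Matrix.fromBlocks A.val 0 0 (A'⁻¹).val)

/-- Let `Γ` be a torsion-free group and `A ∈ GL_n(ℤΓ)` such that all rows of `A` have norm at most
`3`, and let `b` be the number of rows of `A⁻¹` of norm at least `5`.  Then the class of `A` in the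
Whitehead group of `Γ` is represented by a matrix `A' ∈ GL_k(ℤΓ)` with `k ≤ b`, such that all rows of
`A'` have norm `3` and all rows of `A'⁻¹` have norm at least `5`.  In particular, if all rows of
`A⁻¹` have norm at most `4`, then the class of `A` in the Whitehead group is zero. -/
theorem result (Γ : Type) [Group Γ] (htf : ∀ g : Γ, ∀ k : ℕ, 0 < k → g ^ k = 1 → g = 1)
    (n : ℕ) (A : (Matrix (Fin n) (Fin n) (MonoidAlgebra ℤ Γ))ˣ)
    (hA : ∀ i, rowNorm A.val i ≤ 3) :
    (∃ (k : ℕ) (A' : (Matrix (Fin k) (Fin k) (MonoidAlgebra ℤ Γ))ˣ),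
      k ≤ Fintype.card {i : Fin n // 5 ≤ rowNorm (A⁻¹).val i} ∧
      (∀ i, rowNorm A'.val i = 3) ∧ (∀ i, 5 ≤ rowNorm (A'⁻¹).val i) ∧ SameInWh A A') ∧
    ((∀ i, rowNorm (A⁻¹).val i ≤ 4) → ZeroInWh A.val) := by
  obtain ⟨k, A', hk, h1, h2, h3⟩ := main htf n (Fin n) (Fintype.card_fin n) A hA
  refine ⟨⟨k, A', hk, h1, h2, TT_fz _ h3⟩, fun h4 => ?_⟩
  have h5 : k = 0 := by
    have h6 : hv (A⁻¹).val = 0 := by
      unfold hv
      rw [Fintype.card_eq_zero_iff]
      refine ⟨fun i => ?_⟩
      have h7 : rowNorm (A⁻¹).val i.1 ≤ 4 := h4 i.1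
      have h8 : 5 ≤ rowNorm (A⁻¹).val i.1 := i.2
      omega
    omega
  exact TT_fz _ (TT_of_blk_empty h5 _ _ h3)

end Pool.Agent.Results.MP_8f66f0_al.RowsOfNormThree
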